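import Pool.Agent.Helper7.PX.Goals
import Pool.Agent.Helper42.CG.LB
import Pool.Agent.Helper88.TU.Size
import Pool.Agent.Helper67.CG.WT
import Pool.Agent.Helper88.CG.VP

/-!
# MP_69be96_nt, project PX, packet LW: second moment with the weights of the primes at a point
-/

set_option autoImplicit false

open Finset Filter Topology

open scoped Classical

namespace Pool.Agent.Helper39.PX

open Pool.Agent.Helper88.PP (pr Rg om Sf SS uu vv ee LA VV QQ cost)
open Pool.Agent.Helper88.RR (gg ab TB nz Db VM)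
open Pool.Agent.Helper88.GM (NI XI In)
open Pool.Agent.Helper88.CG (tw pw th ic DS sg CN qE mE)
open Pool.Agent.Helper88.TU (Su size)
open Pool.Agent.Helper85.RR (ab_nonneg mem_TB card_TB prod_TB)
open Pool.Agent.Helper3.PP (om_nonneg mem_SS mem_LA LA_sub)
open Pool.Agent.Helper42.CG (Sn prod_ic)
open Pool.Agent.Helper7.PX

/-- The factor `t^(2K+2)` of the error. -/
theorem tpow1 (c' : ℝ) (hc' : 0 < c') (t : ℝ) (ht : 1 ≤ t) : ∃ E0 : ℕ, ∀ E : ℕ, E0 ≤ E →
    ∀ k : ℕ, (2 * (k + 2)) ^ 6 ≤ E →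
    (t ^ (k + 1)) ^ 2 * Real.exp (-(c' * E)) ≤ Real.exp (-(c' / 2 * E)) := by
  obtain ⟨E0, hE0⟩ := exists_nat_ge ((4 * Real.log t / c') ^ 2)
  refine ⟨E0, fun E hE k hk => ?_⟩
  have hE' : (E0 : ℝ) ≤ E := by exact_mod_cast hE
  have hL : 0 ≤ Real.log t := Real.log_nonneg ht
  have ht0 : 0 < t := by linarith
  have h1 : (4 * Real.log t / c') ^ 2 ≤ E := hE0.trans hE'
  have h2 : ((k : ℝ) + 1) ^ 2 ≤ E := by
    have h3 : (k + 1) ^ 2 ≤ E := by
      calc (k + 1) ^ 2 ≤ (2 * (k + 2)) ^ 2 := Nat.pow_le_pow_left (by omega) 2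
        _ ≤ (2 * (k + 2)) ^ 6 := Nat.pow_le_pow_right (by omega) (by norm_num)
        _ ≤ E := hk
    have h4 : (((k + 1) ^ 2 : ℕ) : ℝ) ≤ E := by exact_mod_cast h3
    push_cast at h4
    exact h4
  have h5 : ((k : ℝ) + 1) * (4 * Real.log t / c') ≤ E := by nlinarith [sq_nonneg (((k : ℝ) + 1) - 4 * Real.log t / c')]
  have h6 : 2 * ((k : ℝ) + 1) * Real.log t ≤ c' / 2 * E := by
    have h7 : ((k : ℝ) + 1) * (4 * Real.log t / c') = (4 * (((k : ℝ) + 1) * Real.log t)) / c' := by ring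
    rw [h7, div_le_iff₀ hc'] at h5
    linarith
  have h8 : (t ^ (k + 1)) ^ 2 = Real.exp (2 * ((k : ℝ) + 1) * Real.log t) := by
    rw [← pow_mul, ← Real.exp_log (pow_pos ht0 ((k + 1) * 2)), Real.log_pow]
    congr 1
    push_cast
    ring
  rw [h8, ← Real.exp_add]
  refine Real.exp_le_exp.2 ?_
  linarith

/-! ## Erasing a point -/

section erase

variable {P : Finset ℕ} (j : P)

/-- the inclusion -/
def emb : (P.erase (j : ℕ) : Finset ℕ) ↪ P :=
  ⟨fun i => ⟨(i : ℕ), Finset.mem_of_mem_erase i.2⟩, fun a b h => by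
    apply Subtype.ext
    exact congrArg (fun u : P => (u : ℕ)) h⟩

theorem map_emb : (univ : Finset (P.erase (j : ℕ) : Finset ℕ)).map (emb j) =
    (univ : Finset P).erase j := by
  ext i
  rw [Finset.mem_map, Finset.mem_erase]
  constructor
  · rintro ⟨u, -, rfl⟩
    refine ⟨fun h => ?_, Finset.mem_univ _⟩
    have h1 := Finset.ne_of_mem_erase u.2
    exact h1 (congrArg (fun u : P => (u : ℕ)) h)
  · rintro ⟨h1, -⟩
    have h2 : (i : ℕ) ≠ j := fun h => h1 (Subtype.ext h)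
    exact ⟨⟨i, Finset.mem_erase.2 ⟨h2, i.2⟩⟩, Finset.mem_univ _, rfl⟩

theorem prod_emb {M : Type} [CommMonoid M] (g : P → M) (hg : g j = 1) :
    ∏ i : P, g i = ∏ i : (P.erase (j : ℕ) : Finset ℕ), g (emb j i) := by
  rw [← Finset.mul_prod_erase univ g (Finset.mem_univ j), hg, one_mul, ← map_emb, Finset.prod_map]

theorem sum_emb {M : Type} [AddCommMonoid M] (g : P → M) (hg : g j = 0) :
    ∑ i : P, g i = ∑ i : (P.erase (j : ℕ) : Finset ℕ), g (emb j i) := by
  rw [← Finset.add_sum_erase univ g (Finset.mem_univ j), hg, zero_add, ← map_emb, Finset.sum_map]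

/-- extension by zero -/
noncomputable def exz (r : (P.erase (j : ℕ) : Finset ℕ) → ℕ) : P → ℕ :=
  fun i => if h : (i : ℕ) = j then 0 else r ⟨i, Finset.mem_erase.2 ⟨h, i.2⟩⟩

theorem exz_j (r : (P.erase (j : ℕ) : Finset ℕ) → ℕ) : exz j r j = 0 := by
  unfold exz
  rw [dif_pos rfl]

theorem exz_emb (r : (P.erase (j : ℕ) : Finset ℕ) → ℕ) (i : (P.erase (j : ℕ) : Finset ℕ)) :
    exz j r (emb j i) = r i := by
  unfold exz
  have h1 : ¬ ((emb j i : P) : ℕ) = j := Finset.ne_of_mem_erase i.2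
  rw [dif_neg h1]
  rfl

theorem exz_res (r : P → ℕ) (hr : r j = 0) : exz j (fun i => r (emb j i)) = r := by
  funext i
  unfold exz
  by_cases h : (i : ℕ) = j
  · rw [dif_pos h]
    have h1 : i = j := Subtype.ext h
    rw [h1, hr]
  · rw [dif_neg h]
    rfl

theorem cost_exz (z : ℕ) (r : (P.erase (j : ℕ) : Finset ℕ) → ℕ) :
    cost z (exz j r) = cost z r := by
  unfold cost
  rw [sum_emb j _ (by rw [if_pos (exz_j j r)])]
  refine Finset.sum_congr rfl fun i _ => ?_
  rw [exz_emb]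

theorem exz_mem (E z : ℕ) (r : (P.erase (j : ℕ) : Finset ℕ) → ℕ) :
    exz j r ∈ TE E z P ↔ r ∈ TE E z (P.erase (j : ℕ)) := by
  unfold TE TB
  rw [Finset.mem_filter, Finset.mem_filter, cost_exz, Fintype.mem_piFinset, Fintype.mem_piFinset]
  refine and_congr_left fun _ => ?_
  constructor
  · intro h i
    have := h (emb j i)
    rwa [exz_emb] at this
  · intro h i
    by_cases hi : (i : ℕ) = j
    · have h1 : i = j := Subtype.ext hi
      rw [h1, exz_j]
      exact Finset.mem_insert_self _ _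
    · have h1 := h ⟨i, Finset.mem_erase.2 ⟨hi, i.2⟩⟩
      unfold exz
      rw [dif_neg hi]
      exact h1

theorem sum_exz (E z : ℕ) (F : (P → ℕ) → ℝ) (hF : ∀ r ∈ TE E z P, r j ≠ 0 → F r = 0) :
    ∑ r ∈ TE E z P, F r = ∑ r ∈ TE E z (P.erase (j : ℕ)), F (exz j r) := by
  rw [← Finset.sum_filter_of_ne (p := fun r => r j = 0) (fun r hr h => by
    by_contra h1
    exact h (hF r hr h1))]
  refine Finset.sum_nbij' (fun r i => r (emb j i)) (exz j) ?_ ?_ ?_ ?_ ?_
  · intro r hr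
    rw [Finset.mem_filter] at hr
    rw [← exz_mem, exz_res j r hr.2]
    exact hr.1
  · intro r hr
    rw [Finset.mem_filter, exz_mem, exz_j]
    exact ⟨hr, rfl⟩
  · intro r hr
    exact exz_res j r (Finset.mem_filter.1 hr).2
  · intro r _
    funext i
    exact exz_emb j r i
  · intro r hr
    rw [exz_res j r (Finset.mem_filter.1 hr).2]

/-- the function does not change -/
theorem GW_exz (E z y n : ℕ) (a : (P → ℕ) → ℝ) (ha : ∀ r ∈ TE E z P, r j ≠ 0 → a r = 0) :
    GW E z y a n = GW E z y (fun r => a (exz j r)) n := by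
  unfold GW
  rw [sum_exz j E z _ (fun r hr h => by rw [ha r hr h, zero_mul])]
  refine Finset.sum_congr rfl fun r _ => ?_
  congr 1
  rw [prod_emb j _ (by rw [exz_j]; unfold vv; rw [if_pos rfl])]
  refine Finset.prod_congr rfl fun i _ => ?_
  rw [exz_emb]
  rfl

theorem rough_exz (z y n : ℕ) (r : (P.erase (j : ℕ) : Finset ℕ) → ℕ) :
    (∀ i : P, exz j r i ≠ 0 → Rg y z (n + (i : ℕ))) ↔
      ∀ i, r i ≠ 0 → (i : ℕ) ∈ Sn y z (P.erase (j : ℕ)) n := by
  constructor
  · intro h i hi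
    have h1 := h (emb j i)
    rw [exz_emb] at h1
    unfold Sn
    rw [Finset.mem_filter]
    exact ⟨i.2, h1 hi⟩
  · intro h i hi
    by_cases h0 : (i : ℕ) = j
    · have h1 : i = j := Subtype.ext h0
      rw [h1, exz_j] at hi
      exact absurd rfl hi
    · have h1 := h ⟨i, Finset.mem_erase.2 ⟨h0, i.2⟩⟩
      have h2 : exz j r i = r ⟨i, Finset.mem_erase.2 ⟨h0, i.2⟩⟩ := by
        unfold exz
        rw [dif_neg h0]
      rw [h2] at hi
      have h3 := h1 hi
      unfold Sn at h3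
      rw [Finset.mem_filter] at h3
      exact h3.2

end erase

/-- the main term -/
theorem main_term' (E z x y j : ℕ) (P N : Finset ℕ) (a : (P → ℕ) → ℝ) :
    ∑ r ∈ TE E z P, a r ^ 2 * (CN x y z j N (fun i => sg (r i)) *
        ∏ i : P, (if r i = 0 then 1 else (Nat.totient (r i) : ℝ))) =
    ∑ n ∈ N, pw x (n + j) * ∑ r ∈ TE E z P, (if ∀ i, r i ≠ 0 → (i : ℕ) ∈ Sn y z P n then
        a r ^ 2 * ∏ i : P, (if r i = 0 then 1 else (Nat.totient (r i) : ℝ)) else 0) := by
  unfold CN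
  simp only [Finset.mul_sum, Finset.sum_mul]
  rw [Finset.sum_comm]
  refine Finset.sum_congr rfl fun n _ => Finset.sum_congr rfl fun r _ => ?_
  rw [prod_ic]
  split_ifs with h
  · ring
  · ring

/-- the inner sum -/
theorem inner_exz {P : Finset ℕ} (j : P) (E z y n : ℕ) (a : (P → ℕ) → ℝ)
    (ha : ∀ r ∈ TE E z P, r j ≠ 0 → a r = 0) :
    ∑ r ∈ TE E z P, (if ∀ i : P, r i ≠ 0 → Rg y z (n + (i : ℕ)) then
        a r ^ 2 * ∏ i : P, (if r i = 0 then 1 else (Nat.totient (r i) : ℝ)) else 0) =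
    ∑ r ∈ TE E z (P.erase (j : ℕ)), (if ∀ i, r i ≠ 0 → (i : ℕ) ∈ Sn y z (P.erase (j : ℕ)) n then
        a (exz j r) ^ 2 * ∏ i : (P.erase (j : ℕ) : Finset ℕ),
          (if r i = 0 then 1 else (Nat.totient (r i) : ℝ)) else 0) := by
  rw [sum_exz j E z _ (fun r hr h => by
    split_ifs
    · rw [ha r hr h]
      simp
    · rfl)]
  refine Finset.sum_congr rfl fun r _ => ?_
  have h1 : ∏ i : P, (if exz j r i = 0 then (1 : ℝ) else (Nat.totient (exz j r i) : ℝ)) =
      ∏ i : (P.erase (j : ℕ) : Finset ℕ), (if r i = 0 then 1 else (Nat.totient (r i) : ℝ)) := by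
    rw [prod_emb j _ (by rw [if_pos (exz_j j r)])]
    refine Finset.prod_congr rfl fun i _ => ?_
    rw [exz_emb]
  rw [h1]
  exact if_congr (rough_exz j z y n r) rfl rfl

/-- Packet `LW`. -/
theorem lw (h2 : Pool.Agent.Helper88.TU.StmtER) : StmtLW := by
  have h1 := Pool.Agent.Helper67.CG.wt
  obtain ⟨C, hC, hCB⟩ := Pool.Agent.Helper31.RR.cb
  obtain ⟨c2, hc2, E2, hER⟩ := h2 C hC
  obtain ⟨c5, hc5, E5, hVP⟩ := Pool.Agent.Helper88.CG.vp
  refine ⟨c2 / 2, by positivity, fun t ht => ?_⟩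
  obtain ⟨E6, htp⟩ := tpow1 c2 hc2 t ht
  obtain ⟨E9, hsize⟩ := size
  refine ⟨max (max E2 E5) (max (max E6 E9) 64), fun E z x y hE hS b hb P hP hPA j a ha haj => ?_⟩
  have hE2 : E2 ≤ E := ((le_max_left _ _).trans (le_max_left _ _)).trans hE
  have hE5 : E5 ≤ E := ((le_max_right _ _).trans (le_max_left _ _)).trans hE
  have hE6 : E6 ≤ E :=
    (((le_max_left _ _).trans (le_max_left _ _)).trans (le_max_right _ _)).trans hE
  have hE9 : E9 ≤ E :=
    (((le_max_right _ _).trans (le_max_left _ _)).trans (le_max_right _ _)).trans hE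
  have hE8 : 64 ≤ E := ((le_max_right _ _).trans (le_max_right _ _)).trans hE
  obtain ⟨a1, a2, a3, a4, a5, a6, a7, a8, a9, a10, a11, a12, a13, a14⟩ := hsize E z x y hE9 hS
  obtain ⟨hm1, hqm, hM2, hK6, _, hVV⟩ := hVP E hE5
  have hz2 : 2 ≤ z := by omega
  have hz0 : 1 ≤ z := by omega
  have hzE : (E : ℝ) + 1 ≤ z := (Real.add_one_le_exp _).trans hS.1
  have hzE2 : E + 1 ≤ z := by exact_mod_cast hzE
  have hV1 := (hVV z hz2).1
  have hjP : (j : ℕ) ∈ Icc 1 y := hP j.2
  set P' : Finset ℕ := P.erase (j : ℕ) with hP'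
  have hjP' : (j : ℕ) ∉ P' := Finset.notMem_erase _ _
  have hP'y : P' ⊆ Icc 1 y := (Finset.erase_subset _ _).trans hP
  have hom0 : 0 ≤ om y z := om_nonneg y z
  have hP'A : (P'.card : ℝ) * om y z ≤ (E : ℝ) ^ 2 := by
    refine le_trans (mul_le_mul_of_nonneg_right ?_ hom0) hPA
    exact_mod_cast Finset.card_le_card (Finset.erase_subset _ _)
  set m := mE E with hm
  set q := qE E with hq
  have hq1 : 1 ≤ q := by
    rw [hq]
    unfold qE
    exact Nat.one_le_two_pow
  have hqm' : q * m ≤ E / 16 := by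
    refine le_trans ?_ hqm
    rw [pow_two, mul_assoc]
    calc q * m = 1 * (q * m) := (one_mul _).symm
      _ ≤ q * (q * m) := Nat.mul_le_mul_right _ hq1
  set K : ℕ := 2 * (E / 16 / m + 2) with hK
  have hK3 : K ^ 3 ≤ E := by
    have h7 : 1 ≤ K := by
      rw [hK]
      exact Nat.succ_le_of_lt (by positivity)
    exact (Nat.pow_le_pow_right h7 (by norm_num)).trans hK6
  have hKm : 2 * (E / 16 / m) ≤ K := by
    rw [hK]
    exact Nat.mul_le_mul_left 2 (Nat.le_add_right _ _)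
  have her := hER E z x y hE2 hS b hb K hK3 P' hP'y hP'A j hjP hjP'
  have htp' := htp E hE6 (E / 16 / m) hK6
  set T : ℝ := t ^ (E / 16 / m + 1) with hT
  have ht0 : 0 < t := by linarith
  have hT0 : 0 < T := pow_pos ht0 _
  have hT2 : 0 < T ^ 2 := by positivity
  set N := NI (x / 32) x (QQ x) b with hN
  have hTB : ∀ r : P' → ℕ, r ∈ TE E z P' → r ∈ TB m q (E / 16) z P' := fun r hr => hr
  have hSS0 : ∀ r, r ∈ SS z (z ^ (E / 16)) → r ≠ 0 := by
    intro r hr
    have := (mem_SS.mp hr).1.1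
    omega
  have hLA0 : ∀ r, r ∈ LA z m (q * m) → r ≠ 0 := fun r hr =>
    hSS0 r (LA_sub hz0 hqm' hr)
  have hLA1 : ∀ r, r ∈ LA z m (q * m) → r ≠ 1 := by
    intro r hr h
    have h6 := (mem_LA.mp hr).2
    have h7 : z ^ 1 ≤ z ^ m := Nat.pow_le_pow_right hz0 hm1
    rw [pow_one] at h7
    omega
  have key := h1 P' (fun i => (i : ℕ)) y z (z ^ (E / 16)) (z ^ (2 * (E / 16))) K
    N (fun n => pw x (n + j)) C
    (fun d => CN x y z j N d) (TE E z P')
    (fun r => a (exz j r) / T)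
    (fun _ r => if r = 0 then 1 else if r ∈ LA z m (q * m) then ab m q z r else 0)
    hC ?_ ?_ ?_ ?_ ?_ ?_ ?_ ?_
  · have her' := key.trans her
    have e1 : ∑ n ∈ N, pw x (n + (j : ℕ)) * (∑ r ∈ TE E z P', a (exz j r) / T *
        ∏ i, vv y z (r i) (n + ((i : ℕ)))) ^ 2 =
        (∑ n ∈ N, pw x (n + (j : ℕ)) * GW E z y a n ^ 2) / T ^ 2 := by
      rw [Finset.sum_div]
      refine Finset.sum_congr rfl fun n _ => ?_
      rw [GW_exz j E z y n a haj]
      have e2 : ∑ r ∈ TE E z P', a (exz j r) / T * ∏ i, vv y z (r i) (n + ((i : ℕ))) =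
          GW E z y (fun r => a (exz j r)) n / T := by
        unfold GW
        rw [Finset.sum_div]
        refine Finset.sum_congr rfl fun r _ => ?_
        ring
      rw [e2, div_pow, mul_div_assoc]
    have e3 : ∑ r ∈ TE E z P', (a (exz j r) / T) ^ 2 * (CN x y z j N (fun i => sg (r i)) *
        ∏ i, (if r i = 0 then 1 else (Nat.totient (r i) : ℝ))) =
        (∑ n ∈ N, pw x (n + (j : ℕ)) * ∑ r ∈ TE E z P,
          (if ∀ i : P, r i ≠ 0 → Rg y z (n + (i : ℕ)) then
            a r ^ 2 * ∏ i : P, (if r i = 0 then 1 else (Nat.totient (r i) : ℝ)) else 0)) /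
          T ^ 2 := by
      simp only [inner_exz j E z y _ a haj]
      rw [← main_term' E z x y j P' N (fun r => a (exz j r)), Finset.sum_div]
      refine Finset.sum_congr rfl fun r _ => ?_
      rw [div_pow]
      ring
    rw [e1, e3, ← sub_div, abs_div, abs_of_pos hT2, div_le_iff₀ hT2] at her'
    refine her'.trans ?_
    have hX0 : 0 ≤ XI (x / 32) x (QQ x) := Pool.Agent.Helper42.CG.XI_nonneg _ _ _
    calc Real.exp (-(c2 * E)) * (om y z * XI (x / 32) x (QQ x)) * T ^ 2 =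
          (T ^ 2 * Real.exp (-(c2 * E))) * (om y z * XI (x / 32) x (QQ x)) := by ring
      _ ≤ Real.exp (-(c2 / 2 * E)) * (om y z * XI (x / 32) x (QQ x)) :=
          mul_le_mul_of_nonneg_right htp' (mul_nonneg hom0 hX0)
  · intro r hr i
    rcases (mem_TB (hTB r hr)).1 i with h | h
    · exact Or.inl h
    · exact Or.inr (LA_sub hz0 hqm' h)
  · intro r hr s _ i hi
    rcases (mem_TB (hTB r hr)).1 i with h | h
    · omega
    · exact absurd hi (hLA1 _ h)
  · intro r hr
    calc (∏ i, max 1 (r i)) ^ 2 ≤ (z ^ (E / 16)) ^ 2 :=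
          Nat.pow_le_pow_left (prod_TB hz2 (hTB r hr)) 2
      _ = z ^ (2 * (E / 16)) := by rw [← pow_mul, mul_comm]
  · intro r hr s hs
    rw [Finset.filter_or]
    refine (Finset.card_union_le _ _).trans ?_
    have h5 := card_TB hm1 hz2 (hTB r hr)
    have h6 := card_TB hm1 hz2 (hTB s hs)
    unfold nz at h5 h6
    omega
  · intro i r
    have h5 := ab_nonneg m q z r
    split_ifs <;> positivity
  · intro i
    simp
  · intro r hr
    have hr' := hTB r hr
    have h3 := ha (exz j r) ((exz_mem j E z r).2 hr)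
    have h4 : ∏ i : P, (if exz j r i = 0 then (1 : ℝ) else t * ab (mE E) (qE E) z (exz j r i)) =
        ∏ i, (if r i = 0 then (1 : ℝ) else t * ab m q z (r i)) := by
      rw [prod_emb j _ (by rw [if_pos (exz_j j r)])]
      refine Finset.prod_congr rfl fun i _ => ?_
      rw [exz_emb]
    rw [h4] at h3
    have h5 : ∏ i, (if r i = 0 then (1 : ℝ) else t * ab m q z (r i)) =
        t ^ nz r * ∏ i, (if r i = 0 then (1 : ℝ) else ab m q z (r i)) := by
      have h6 : t ^ nz r = ∏ i, (if r i = 0 then (1 : ℝ) else t) := by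
        unfold nz
        rw [Finset.prod_ite, Finset.prod_const_one, one_mul, Finset.prod_const]
      rw [h6, ← Finset.prod_mul_distrib]
      refine Finset.prod_congr rfl fun i _ => ?_
      split_ifs
      · rw [one_mul]
      · rfl
    have h7 : ∏ i, (if r i = 0 then (1 : ℝ) else if r i ∈ LA z m (q * m) then ab m q z (r i)
        else 0) = ∏ i, (if r i = 0 then (1 : ℝ) else ab m q z (r i)) := by
      refine Finset.prod_congr rfl fun i _ => ?_
      rcases (mem_TB hr').1 i with h | h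
      · rw [if_pos h, if_pos h]
      · rw [if_neg (hLA0 _ h), if_neg (hLA0 _ h), if_pos h]
    rw [h7, abs_div, abs_of_pos hT0, div_le_iff₀ hT0]
    refine h3.trans ?_
    rw [h5]
    have h8 : 0 ≤ ∏ i, (if r i = 0 then (1 : ℝ) else ab m q z (r i)) := by
      refine Finset.prod_nonneg fun i _ => ?_
      split_ifs
      · exact zero_le_one
      · exact ab_nonneg _ _ _ _
    have h9 : t ^ nz r ≤ t ^ (E / 16 / m) := pow_le_pow_right₀ ht (card_TB hm1 hz2 hr')
    calc t * (t ^ nz r * ∏ i, (if r i = 0 then (1 : ℝ) else ab m q z (r i))) ≤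
          t * (t ^ (E / 16 / m) * ∏ i, (if r i = 0 then (1 : ℝ) else ab m q z (r i))) := by
          refine mul_le_mul_of_nonneg_left (mul_le_mul_of_nonneg_right h9 h8) ht0.le
      _ = (∏ i, (if r i = 0 then (1 : ℝ) else ab m q z (r i))) * T := by
          rw [hT, pow_succ]
          ring
  · intro i d hd
    have hCB' := (hCB m q (E / 16) z hm1 hz2 (by omega) hV1 d hd).1
    refine le_of_eq_of_le ?_ hCB'
    congr 1
    have h5 : ∀ r ∈ (SS z (z ^ (E / 16))).filter (fun r => d ∣ r),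
        (if r = 0 then (1 : ℝ) else if r ∈ LA z m (q * m) then ab m q z r else 0) =
        if r ∈ LA z m (q * m) then ab m q z r else 0 := by
      intro r hr
      rw [if_neg (hSS0 r (Finset.mem_filter.mp hr).1)]
    rw [Finset.sum_congr rfl h5, ← Finset.sum_filter]
    refine Finset.sum_congr ?_ fun _ _ => rfl
    ext r
    simp only [Finset.mem_filter]
    constructor
    · rintro ⟨⟨_, h7⟩, h8⟩
      exact ⟨h8, h7⟩
    · rintro ⟨h7, h8⟩
      exact ⟨⟨LA_sub hz0 hqm' h7, h8⟩, h7⟩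

end Pool.Agent.Helper39.PX
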